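import Mathlib

set_option autoImplicit false
open scoped ENNReal Topology
open Filter

namespace Pool.Agent.H.MP_ba3ff3_pr

noncomputable def iter {X : Type*} [DecidableEq X] (P : X → X → ℝ≥0∞) (x0 : X) : ℕ → X → ℝ≥0∞
  | 0 => fun y => if y = x0 then 1 else 0
  | n + 1 => fun y => ∑' x, iter P x0 n x * P x y

theorem iter_int {X : Type*} [DecidableEq X] (P : X → X → ℝ≥0∞) (x0 : X) (n : ℕ)
    (V : X → ℝ≥0∞) :
    ∑' y, iter P x0 (n + 1) y * V y = ∑' x, iter P x0 n x * ∑' y, P x y * V y := by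
  simp only [iter]
  simp_rw [← ENNReal.tsum_mul_right, ← ENNReal.tsum_mul_left, mul_assoc]
  exact ENNReal.tsum_comm

theorem iter_mass {X : Type*} [DecidableEq X] (P : X → X → ℝ≥0∞) (hP : ∀ x, ∑' y, P x y = 1)
    (x0 : X) (n : ℕ) : ∑' y, iter P x0 n y = 1 := by
  induction n with
  | zero => simp [iter]
  | succ n ih =>
    have := iter_int P x0 n (fun _ => 1)
    simp only [mul_one, hP] at this
    rw [this, ih]

theorem foster {X : Type*} [DecidableEq X] (P : X → X → ℝ≥0∞) (hP : ∀ x, ∑' y, P x y = 1)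
    (V : X → ℝ≥0∞) (C : Finset X) (b : ℝ≥0∞) (hb : b ≠ ⊤) (x0 : X) (hV0 : V x0 ≠ ⊤)
    (hd : ∀ x, ∑' y, P x y * V y + 1 ≤ V x + if x ∈ C then b else 0) :
    ∃ π : X → ℝ≥0∞, ∑' x, π x = 1 ∧ ∀ y, π y = ∑' x, π x * P x y := by
  set μ := iter P x0 with hμ
  have hmass : ∀ n, ∑' y, μ n y = 1 := iter_mass P hP x0
  have hle1 : ∀ n y, μ n y ≤ 1 := fun n y => (ENNReal.le_tsum y).trans (hmass n).le
  have hPtop : ∀ x y, P x y ≠ ⊤ := fun x y =>
    ne_top_of_le_ne_top ENNReal.one_ne_top ((ENNReal.le_tsum y).trans (hP x).le)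
  have hstep : ∀ n, ∑' y, μ (n + 1) y * V y + 1 ≤ ∑' y, μ n y * V y + b * ∑ x ∈ C, μ n x := by
    intro n
    rw [hμ, iter_int, ← hμ]
    calc ∑' x, μ n x * ∑' y, P x y * V y + 1
        = ∑' x, μ n x * (∑' y, P x y * V y + 1) := by
          simp_rw [mul_add, mul_one]
          rw [ENNReal.tsum_add, hmass]
      _ ≤ ∑' x, μ n x * (V x + if x ∈ C then b else 0) :=
          ENNReal.tsum_le_tsum fun x => mul_le_mul_right (hd x) _
      _ = ∑' y, μ n y * V y + b * ∑ x ∈ C, μ n x := by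
          simp_rw [mul_add]
          rw [ENNReal.tsum_add]
          congr 1
          rw [tsum_eq_sum (s := C) (by intro x hx; simp [hx]), Finset.mul_sum]
          exact Finset.sum_congr rfl fun x hx => by simp [hx, mul_comm]
  have hsum : ∀ N : ℕ, ∑' y, μ N y * V y + N ≤ V x0 + b * ∑ n ∈ Finset.range N, ∑ x ∈ C, μ n x := by
    intro N
    induction N with
    | zero =>
      simp only [hμ, iter, Nat.cast_zero, add_zero, Finset.range_zero, Finset.sum_empty, mul_zero]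
      rw [tsum_eq_single x0 (by intro y hy; simp [hy])]
      simp
    | succ N ih =>
      rw [Finset.sum_range_succ, mul_add, ← add_assoc]
      push_cast
      calc ∑' y, μ (N + 1) y * V y + (N + 1) = (∑' y, μ (N + 1) y * V y + 1) + N := by ring
        _ ≤ (∑' y, μ N y * V y + b * ∑ x ∈ C, μ N x) + N := add_le_add_left (hstep N) _
        _ = (∑' y, μ N y * V y + N) + b * ∑ x ∈ C, μ N x := by ring
        _ ≤ _ := by gcongr
  set ν : ℕ → X → ℝ≥0∞ := fun N y => (∑ n ∈ Finset.range (N + 1), μ n y) * ((N : ℝ≥0∞) + 1)⁻¹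
    with hν
  have hinv : ∀ N : ℕ, ((N : ℝ≥0∞) + 1) * ((N : ℝ≥0∞) + 1)⁻¹ = 1 := fun N =>
    ENNReal.mul_inv_cancel (by simp) (by simp)
  have hν1 : ∀ N, ∑' y, ν N y = 1 := by
    intro N
    simp only [hν]
    rw [ENNReal.tsum_mul_right, Summable.tsum_finsetSum (fun _ _ => ENNReal.summable)]
    simp only [hmass, Finset.sum_const, Finset.card_range, nsmul_eq_mul, mul_one]
    push_cast
    exact hinv N
  have hν2 : ∀ N y, ∑' x, ν N x * P x y ≤ ν N y + ((N : ℝ≥0∞) + 1)⁻¹ := by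
    intro N y
    simp only [hν]
    have : ∀ x, (∑ n ∈ Finset.range (N + 1), μ n x) * ((N : ℝ≥0∞) + 1)⁻¹ * P x y
        = (∑ n ∈ Finset.range (N + 1), μ n x * P x y) * ((N : ℝ≥0∞) + 1)⁻¹ := by
      intro x
      rw [← Finset.sum_mul]; ring
    simp_rw [this]
    rw [ENNReal.tsum_mul_right, Summable.tsum_finsetSum (fun _ _ => ENNReal.summable)]
    have h2 : ∑ n ∈ Finset.range (N + 1), ∑' x, μ n x * P x y
        ≤ ∑ n ∈ Finset.range (N + 1), μ n y + 1 := by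
      have : ∀ n, ∑' x, μ n x * P x y = μ (n + 1) y := fun n => rfl
      simp_rw [this]
      rw [Finset.sum_range_succ, Finset.sum_range_succ']
      gcongr
      · exact le_self_add
      · exact hle1 _ _
    calc _ ≤ (∑ n ∈ Finset.range (N + 1), μ n y + 1) * ((N : ℝ≥0∞) + 1)⁻¹ := by gcongr
      _ = _ := by rw [add_mul, one_mul]
  have hν3 : ∀ N : ℕ, 1 ≤ V x0 * ((N : ℝ≥0∞) + 1)⁻¹ + b * ∑ x ∈ C, ν N x := by
    intro N
    have h := hsum (N + 1)
    push_cast at h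
    have h' : (N : ℝ≥0∞) + 1 ≤ V x0 + b * ∑ n ∈ Finset.range (N + 1), ∑ x ∈ C, μ n x :=
      le_add_self.trans h
    calc (1 : ℝ≥0∞) = ((N : ℝ≥0∞) + 1) * ((N : ℝ≥0∞) + 1)⁻¹ := (hinv N).symm
      _ ≤ (V x0 + b * ∑ n ∈ Finset.range (N + 1), ∑ x ∈ C, μ n x) * ((N : ℝ≥0∞) + 1)⁻¹ := by
          gcongr
      _ = _ := by
          simp only [hν]
          rw [add_mul, Finset.sum_comm, ← Finset.sum_mul, mul_assoc]
  let U : Ultrafilter ℕ := hyperfilter ℕ
  have hU : (U : Filter ℕ) ≤ atTop := by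
    rw [← Nat.cofinite_eq_atTop]; exact hyperfilter_le_cofinite
  have hlim : ∀ y, ∃ l, Tendsto (fun N => ν N y) U (𝓝 l) := by
    intro y
    obtain ⟨l, -, hl⟩ := isCompact_univ.ultrafilter_le_nhds (U.map fun N => ν N y) (by simp)
    exact ⟨l, hl⟩
  choose ρ hρ using hlim
  have hz : Tendsto (fun N : ℕ => ((N : ℝ≥0∞) + 1)⁻¹) U (𝓝 0) := by
    refine Tendsto.mono_left ?_ hU
    have := ENNReal.tendsto_inv_nat_nhds_zero.comp (tendsto_add_atTop_nat 1)
    refine this.congr fun N => ?_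
    simp
  have hρ1 : ∑' y, ρ y ≤ 1 := by
    rw [ENNReal.tsum_eq_iSup_sum]
    refine iSup_le fun F => ?_
    refine le_of_tendsto' (tendsto_finsetSum F fun y _ => hρ y) fun N => ?_
    exact (ENNReal.sum_le_tsum F).trans (hν1 N).le
  have hρ2 : ∀ y, ∑' x, ρ x * P x y ≤ ρ y := by
    intro y
    rw [ENNReal.tsum_eq_iSup_sum]
    refine iSup_le fun F => ?_
    have h1 : Tendsto (fun N => ∑ x ∈ F, ν N x * P x y) U (𝓝 (∑ x ∈ F, ρ x * P x y)) :=
      tendsto_finsetSum F fun x _ => ENNReal.Tendsto.mul_const (hρ x) (Or.inr (hPtop x y))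
    have h2 : Tendsto (fun N : ℕ => ν N y + ((N : ℝ≥0∞) + 1)⁻¹) U (𝓝 (ρ y + 0)) :=
      (hρ y).add hz
    rw [add_zero] at h2
    exact le_of_tendsto_of_tendsto' h1 h2 fun N => (ENNReal.sum_le_tsum F).trans (hν2 N y)
  have hρ3 : 1 ≤ b * ∑ x ∈ C, ρ x := by
    have h1 : Tendsto (fun N : ℕ => V x0 * ((N : ℝ≥0∞) + 1)⁻¹ + b * ∑ x ∈ C, ν N x) U
        (𝓝 (V x0 * 0 + b * ∑ x ∈ C, ρ x)) :=
      (ENNReal.Tendsto.const_mul hz (Or.inr hV0)).add
        (ENNReal.Tendsto.const_mul (tendsto_finsetSum C fun y _ => hρ y) (Or.inr hb))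
    rw [mul_zero, zero_add] at h1
    exact ge_of_tendsto' h1 hν3
  have hρ0 : ∑' y, ρ y ≠ 0 := by
    intro h
    have : ∑ x ∈ C, ρ x = 0 := le_antisymm ((ENNReal.sum_le_tsum C).trans h.le) bot_le
    rw [this, mul_zero] at hρ3
    exact absurd hρ3 (by simp)
  have hρt : ∑' y, ρ y ≠ ⊤ := ne_top_of_le_ne_top ENNReal.one_ne_top hρ1
  have htot : ∑' y, ∑' x, ρ x * P x y = ∑' y, ρ y := by
    rw [ENNReal.tsum_comm]
    simp_rw [ENNReal.tsum_mul_left, hP, mul_one]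
  have heq : ∀ y, ρ y = ∑' x, ρ x * P x y := by
    intro y
    by_contra hne
    have hlt : ∑' x, ρ x * P x y < ρ y := lt_of_le_of_ne (hρ2 y) (Ne.symm hne)
    have := ENNReal.tsum_lt_tsum (f := fun y => ∑' x, ρ x * P x y) (g := ρ) (i := y)
      (by rw [htot]; exact hρt) hρ2 hlt
    rw [htot] at this
    exact lt_irrefl _ this
  refine ⟨fun y => (∑' y, ρ y)⁻¹ * ρ y, ?_, fun y => ?_⟩
  · rw [ENNReal.tsum_mul_left, ENNReal.inv_mul_cancel hρ0 hρt]
  · simp_rw [mul_assoc]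
    rw [ENNReal.tsum_mul_left, ← heq y]

end Pool.Agent.H.MP_ba3ff3_pr
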