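import Mathlib
import Pool.Agent.H.MP_ba3ff3_pr.Foster

set_option autoImplicit false
open scoped ENNReal Topology
open Filter

namespace Pool.Agent.H.MP_ba3ff3_pr

noncomputable def pois (lam : ℝ) (k : ℕ) : ℝ := Real.exp (-lam) * lam ^ k / (k.factorial : ℝ)

noncomputable def sc (w : ℕ) (p : ℝ) : ℝ := (w : ℝ) * p * (1 - p) ^ (w - 1)

theorem pois_nonneg {lam : ℝ} (h : 0 ≤ lam) (k : ℕ) : 0 ≤ pois lam k := by
  unfold pois; positivity

theorem hasSum_pois_pow (lam z : ℝ) :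
    HasSum (fun k => pois lam k * z ^ k) (Real.exp (lam * (z - 1))) := by
  have h := (NormedSpace.expSeries_div_hasSum_exp (lam * z)).mul_left (Real.exp (-lam))
  rw [← Real.exp_eq_exp_ℝ, ← Real.exp_add] at h
  have e : lam * (z - 1) = -lam + lam * z := by ring
  rw [e]
  refine (HasSum.congr_fun h fun k => ?_ :)
  unfold pois
  rw [mul_pow]; ring

theorem hasSum_pois (lam : ℝ) : HasSum (pois lam) 1 := by
  have := hasSum_pois_pow lam 1
  simpa using this

theorem hasSum_pois_id (lam : ℝ) : HasSum (fun k => pois lam k * (k : ℝ)) lam := by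
  have h := (hasSum_pois lam).mul_left lam
  rw [mul_one] at h
  rw [← hasSum_nat_add_iff' 1]
  simp only [Finset.range_one, Finset.sum_singleton, Nat.cast_zero, mul_zero, sub_zero]
  refine (HasSum.congr_fun h fun k => ?_ :)
  unfold pois
  rw [Nat.factorial_succ]
  push_cast
  have : (k.factorial : ℝ) ≠ 0 := by positivity
  field_simp
  ring

theorem sc_nonneg (w : ℕ) {p : ℝ} (h0 : 0 ≤ p) (h1 : p ≤ 1) : 0 ≤ sc w p := by
  unfold sc
  have : 0 ≤ 1 - p := by linarith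
  positivity

theorem sc_le_one (w : ℕ) {p : ℝ} (h0 : 0 ≤ p) (h1 : p ≤ 1) : sc w p ≤ 1 := by
  unfold sc
  have h2 : 0 ≤ 1 - p := by linarith
  have key : ∀ n : ℕ, ((n : ℝ) + 1) * p * (1 - p) ^ n ≤ 1 - (1 - p) ^ (n + 1) := by
    intro n
    induction n with
    | zero => simp
    | succ n ih =>
      push_cast
      have h3 : (1 - p) ^ (n + 1) ≤ 1 := pow_le_one₀ h2 (by linarith)
      have h4 : ((n : ℝ) + 1) * p * (1 - p) ^ n * (1 - p) ≤ (1 - (1 - p) ^ (n + 1)) * (1 - p) :=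
        mul_le_mul_of_nonneg_right ih h2
      have h5 : p * (1 - p) ^ (n + 1) ≤ p * 1 := mul_le_mul_of_nonneg_left h3 h0
      calc ((n : ℝ) + 1 + 1) * p * (1 - p) ^ (n + 1)
          = ((n : ℝ) + 1) * p * (1 - p) ^ n * (1 - p) + p * (1 - p) ^ (n + 1) := by ring
        _ ≤ (1 - (1 - p) ^ (n + 1)) * (1 - p) + p * 1 := add_le_add h4 h5
        _ = 1 - (1 - p) ^ (n + 1 + 1) := by ring
  rcases w with _ | n
  · simp
  · have := key n
    have h6 : 0 ≤ (1 - p) ^ (n + 1) := by positivity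
    simp only [Nat.add_sub_cancel]
    push_cast
    linarith

theorem shift_sum {S : Type*} [DecidableEq S] (a : ℕ) (s0 : S) (c : ℕ → ℝ≥0∞)
    (V : ℕ × S → ℝ≥0∞) :
    ∑' y : ℕ × S, (if a ≤ y.1 ∧ s0 = y.2 then c (y.1 - a) else 0) * V y
      = ∑' k, c k * V (a + k, s0) := by
  have hinj : Function.Injective (fun k : ℕ => ((a + k, s0) : ℕ × S)) := by
    intro k l h
    simpa using h
  rw [← hinj.tsum_eq]
  · simp
  · intro y hy
    by_cases h : a ≤ y.1 ∧ s0 = y.2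
    · refine ⟨y.1 - a, ?_⟩
      ext
      · simp only; omega
      · exact h.2
    · simp [h] at hy

noncomputable def EP (lam : ℝ) (g : ℕ → ℝ≥0∞) : ℝ≥0∞ := ∑' k, ENNReal.ofReal (pois lam k) * g k

theorem EP_le {lam : ℝ} (hl : 0 ≤ lam) (g h : ℕ → ℝ) (H : ℝ) (hg : ∀ k, g k ≤ h k)
    (h0 : ∀ k, 0 ≤ h k) (hs : HasSum (fun k => pois lam k * h k) H) :
    EP lam (fun k => ENNReal.ofReal (g k)) ≤ ENNReal.ofReal H := by
  unfold EP
  rw [← hs.tsum_eq, ENNReal.ofReal_tsum_of_nonneg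
    (fun k => mul_nonneg (pois_nonneg hl k) (h0 k)) hs.summable]
  refine ENNReal.tsum_le_tsum fun k => ?_
  rw [ENNReal.ofReal_mul (pois_nonneg hl k)]
  gcongr
  exact ENNReal.ofReal_le_ofReal (hg k)

theorem auto {S : Type} (lam : ℝ) (hl : 0 < lam) (p : S → ℝ) (hp : Function.Injective p)
    (hp0 : ∀ s, 0 ≤ p s) (hp1 : ∀ s, p s ≤ 1) (nx : S → Bool → S)
    (V : ℕ × S → ℝ≥0∞) (C : Set (ℕ × S)) (hC : C.Finite) (b : ℝ≥0∞) (hb : b ≠ ⊤)
    (x0 : ℕ × S) (hV0 : V x0 ≠ ⊤)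
    (hd : ∀ w s, ENNReal.ofReal (sc w (p s)) * EP lam (fun k => V (w - 1 + k, nx s true))
        + ENNReal.ofReal (1 - sc w (p s)) * EP lam (fun k => V (w + k, nx s false)) + 1
        ≤ V (w, s) + C.indicator (fun _ => b) (w, s)) :
      ∃ f : ℝ → Bool → ℝ,
        (∀ p ∈ Set.Icc (0:ℝ) 1, ∀ b : Bool, f p b ∈ Set.Icc (0:ℝ) 1) ∧
        ∃ π : ℕ → ℝ → ℝ,
          (∀ w p, 0 ≤ π w p) ∧
          (∀ w p, π w p ≠ 0 → p ∈ Set.Icc (0:ℝ) 1) ∧
          Summable (fun x : ℕ × ℝ => π x.1 x.2) ∧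
          (∑' x : ℕ × ℝ, π x.1 x.2) = 1 ∧
          ∀ w' : ℕ, ∀ p' : ℝ,
            π w' p' = ∑' x : ℕ × ℝ, π x.1 x.2 *
              ((if x.1 ≤ w' + 1 ∧ f x.2 true = p' then
                  ((x.1 : ℝ) * x.2 * (1 - x.2) ^ (x.1 - 1)) *
                    (Real.exp (-lam) * lam ^ (w' + 1 - x.1) / ((w' + 1 - x.1).factorial : ℝ))
                else 0) +
               (if x.1 ≤ w' ∧ f x.2 false = p' then
                  (1 - (x.1 : ℝ) * x.2 * (1 - x.2) ^ (x.1 - 1)) *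
                    (Real.exp (-lam) * lam ^ (w' - x.1) / ((w' - x.1).factorial : ℝ))
                else 0)) := by
  classical
  let P : ℕ × S → ℕ × S → ℝ≥0∞ := fun x y =>
    ENNReal.ofReal (sc x.1 (p x.2)) *
        (if x.1 - 1 ≤ y.1 ∧ nx x.2 true = y.2 then ENNReal.ofReal (pois lam (y.1 - (x.1 - 1))) else 0)
      + ENNReal.ofReal (1 - sc x.1 (p x.2)) *
        (if x.1 ≤ y.1 ∧ nx x.2 false = y.2 then ENNReal.ofReal (pois lam (y.1 - x.1)) else 0)
  have hPV : ∀ (x : ℕ × S) (W : ℕ × S → ℝ≥0∞), ∑' y, P x y * W y =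
      ENNReal.ofReal (sc x.1 (p x.2)) * EP lam (fun k => W (x.1 - 1 + k, nx x.2 true))
        + ENNReal.ofReal (1 - sc x.1 (p x.2)) * EP lam (fun k => W (x.1 + k, nx x.2 false)) := by
    intro x W
    simp only [P, add_mul, mul_assoc]
    rw [ENNReal.tsum_add, ENNReal.tsum_mul_left, ENNReal.tsum_mul_left,
      shift_sum (x.1 - 1) (nx x.2 true) (fun k => ENNReal.ofReal (pois lam k)) W,
      shift_sum x.1 (nx x.2 false) (fun k => ENNReal.ofReal (pois lam k)) W]
    rfl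
  have hE1 : EP lam (fun _ => 1) = 1 := by
    unfold EP
    simp only [mul_one]
    rw [← ENNReal.ofReal_tsum_of_nonneg (pois_nonneg hl.le) (hasSum_pois lam).summable,
      (hasSum_pois lam).tsum_eq, ENNReal.ofReal_one]
  have hP : ∀ x, ∑' y, P x y = 1 := by
    intro x
    have := hPV x (fun _ => 1)
    simp only [mul_one, hE1] at this
    rw [this, ← ENNReal.ofReal_add (sc_nonneg _ (hp0 _) (hp1 _))
      (by linarith [sc_le_one x.1 (hp0 x.2) (hp1 x.2)])]
    simp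
  obtain ⟨π, hπ1, hπ2⟩ := foster P hP V hC.toFinset b hb x0 hV0 (by
    intro x
    rw [hPV]
    have := hd x.1 x.2
    simpa [Set.indicator] using this)
  have hπt : ∀ x, π x ≠ ⊤ := fun x =>
    ne_top_of_le_ne_top ENNReal.one_ne_top ((ENNReal.le_tsum x).trans hπ1.le)
  have hPt : ∀ x y, P x y ≠ ⊤ := fun x y =>
    ne_top_of_le_ne_top ENNReal.one_ne_top ((ENNReal.le_tsum y).trans (hP x).le)
  let f : ℝ → Bool → ℝ := fun q c => Function.extend p (fun s => p (nx s c)) 0 q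
  have hf : ∀ s c, f (p s) c = p (nx s c) := fun s c => hp.extend_apply _ _ _
  let ρ : ℕ → ℝ → ℝ := fun w q => Function.extend p (fun s => (π (w, s)).toReal) 0 q
  have hρ : ∀ w s, ρ w (p s) = (π (w, s)).toReal := fun w s => hp.extend_apply _ _ _
  have hρ' : ∀ w q, (¬ ∃ s, p s = q) → ρ w q = 0 := fun w q h => Function.extend_apply' _ _ _ h
  let e : ℕ × S → ℕ × ℝ := fun x => (x.1, p x.2)
  have he : Function.Injective e := by
    intro x y h
    simp only [e, Prod.mk.injEq] at h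
    exact Prod.ext h.1 (hp h.2)
  have hsupp : ∀ x : ℕ × ℝ, x ∉ Set.range e → ρ x.1 x.2 = 0 := by
    intro x hx
    apply hρ'
    rintro ⟨s, hs⟩
    exact hx ⟨(x.1, s), Prod.ext rfl hs⟩
  refine ⟨f, ?_, ρ, ?_, ?_, ?_, ?_, ?_⟩
  · intro q _ c
    by_cases h : ∃ s, p s = q
    · obtain ⟨s, rfl⟩ := h
      rw [hf]; exact ⟨hp0 _, hp1 _⟩
    · have : f q c = 0 := Function.extend_apply' _ _ _ h
      rw [this]; simp
  · intro w q
    by_cases h : ∃ s, p s = q
    · obtain ⟨s, rfl⟩ := h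
      rw [hρ]; exact ENNReal.toReal_nonneg
    · rw [hρ' w q h]
  · intro w q hq
    by_cases h : ∃ s, p s = q
    · obtain ⟨s, rfl⟩ := h
      exact ⟨hp0 _, hp1 _⟩
    · exact absurd (hρ' w q h) hq
  · rw [← he.summable_iff hsupp]
    have := ENNReal.summable_toReal (f := π) (by rw [hπ1]; exact ENNReal.one_ne_top)
    refine this.congr fun x => ?_
    simp only [Function.comp, e, hρ]
  · rw [← he.tsum_eq (f := fun x : ℕ × ℝ => ρ x.1 x.2)
      (fun x hx => by by_contra h; exact hx (hsupp x h))]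
    simp only [e, hρ]
    rw [← ENNReal.tsum_toReal_eq hπt, hπ1, ENNReal.toReal_one]
  · intro w' q
    rw [← he.tsum_eq (fun x hx => by
      by_contra h
      apply hx
      simp only [hsupp x h, zero_mul])]
    simp only [e, hρ, hf]
    by_cases h : ∃ s, p s = q
    · obtain ⟨s, rfl⟩ := h
      rw [hρ, hπ2, ENNReal.tsum_toReal_eq (fun x => ENNReal.mul_ne_top (hπt x) (hPt x _))]
      refine tsum_congr fun x => ?_
      rw [ENNReal.toReal_mul]
      congr 1
      have s0 := sc_nonneg x.1 (hp0 x.2) (hp1 x.2)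
      have s1 : 0 ≤ 1 - sc x.1 (p x.2) := by linarith [sc_le_one x.1 (hp0 x.2) (hp1 x.2)]
      simp only [P, hp.eq_iff]
      rw [ENNReal.toReal_add (ENNReal.mul_ne_top (by simp) (by split_ifs <;> simp))
        (ENNReal.mul_ne_top (by simp) (by split_ifs <;> simp)), ENNReal.toReal_mul,
        ENNReal.toReal_mul, ENNReal.toReal_ofReal s0, ENNReal.toReal_ofReal s1]
      congr 1
      · by_cases h1 : x.1 ≤ w' + 1 ∧ nx x.2 true = s
        · rw [if_pos h1, if_pos ⟨by omega, h1.2⟩, ENNReal.toReal_ofReal (pois_nonneg hl.le _)]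
          rcases Nat.eq_zero_or_pos x.1 with h0 | h0
          · simp [sc, h0]
          · have : w' + 1 - x.1 = w' - (x.1 - 1) := by omega
            rw [this]; rfl
        · rw [if_neg h1, if_neg (fun h => h1 ⟨by omega, h.2⟩)]
          simp
      · by_cases h1 : x.1 ≤ w' ∧ nx x.2 false = s
        · rw [if_pos h1, if_pos h1, ENNReal.toReal_ofReal (pois_nonneg hl.le _)]
          rfl
        · rw [if_neg h1, if_neg h1]
          simp
    · rw [hρ' w' q h]
      symm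
      have : ∀ s, p s ≠ q := fun s hs => h ⟨s, hs⟩
      simp [this]

theorem exists_inj {S : Type} [Countable S] (lo hi : S → ℝ) (h : ∀ s, lo s < hi s) :
    ∃ p : S → ℝ, Function.Injective p ∧ ∀ s, lo s < p s ∧ p s < hi s := by
  obtain ⟨c, hc⟩ := exists_injective_nat S
  have : ∀ s, ∃ q : ℚ, lo s - Real.sqrt 2 * c s < q ∧ (q : ℝ) < hi s - Real.sqrt 2 * c s :=
    fun s => exists_rat_btwn (by linarith [h s])
  choose q hq using this
  refine ⟨fun s => q s + Real.sqrt 2 * c s, ?_, fun s => ⟨by linarith [(hq s).1], by linarith [(hq s).2]⟩⟩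
  intro s t hst
  apply hc
  by_contra hne
  have hne' : ((c s : ℚ) - c t) ≠ 0 := sub_ne_zero.2 (by exact_mod_cast hne)
  apply irrational_sqrt_two
  refine ⟨(q t - q s) / ((c s : ℚ) - c t), ?_⟩
  have hne2 : ((c s : ℝ) - c t) ≠ 0 := sub_ne_zero.2 (by exact_mod_cast hne)
  push_cast
  rw [div_eq_iff hne2]
  simp only at hst
  linarith

end Pool.Agent.H.MP_ba3ff3_pr
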