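import Mathlib
import Pool.Agent.H.MP_ba3ff3_pr.Auto

set_option autoImplicit false
open scoped ENNReal Topology
open Filter

namespace Pool.Agent.H.MP_ba3ff3_pr

noncomputable def uu : ℝ := 257 / 256

noncomputable def psi (z : ℝ) (w m : ℕ) : ℝ :=
  z ^ w / (z ^ 2 * uu ^ (2 * m)) + 4 / z ^ 2 * (1 - 1 / uu ^ m) + 3 / 16

noncomputable def phi (M : ℕ) (z : ℝ) (w t : ℕ) : ℝ :=
  if t ≤ 4 * M then
    (if t = 0 ∨ 2 ≤ w then 1
     else if w = 0 then min 1 (1 / 16 + 2 / M + Real.exp (-(1 / M)) ^ t) else 1 / 16)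
  else min 1 (psi z w (t - 4 * M))

noncomputable def gg (M w J : ℕ) : ℝ := M / 2 * max 0 ((w : ℝ) - 192 * 2 ^ J)

noncomputable def WW (M : ℕ) (z : ℝ) (w J t : ℕ) : ℝ :=
  2 * t + 64 * M * 2 ^ J * phi M z w t + gg M w J

def nx (M : ℕ) (s : ℕ × ℕ) (c : Bool) : ℕ × ℕ :=
  if c = true ∧ s.2 < 4 * M then (0, 8 * M - 1)
  else if s.2 = 0 then (s.1 + 1, 8 * M * 2 ^ (s.1 + 1) - 1) else (s.1, s.2 - 1)

noncomputable def VV (M : ℕ) (z : ℝ) (x : ℕ × (ℕ × ℕ)) : ℝ := WW M z x.1 x.2.1 (x.2.2 + 1)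

structure Par (k M : ℕ) (z : ℝ) : Prop where
  hz : z = uu ^ (2 * k)
  h12 : 12 ≤ z
  hk : 48 * k ≤ M
  hM : 512 * z ≤ M

theorem uu_gt : 1 < uu := by unfold uu; norm_num

theorem psi_ge (z : ℝ) (hz : 0 < z) (w m : ℕ) :
    z ^ w / (z ^ 2 * uu ^ (2 * m)) + 3 / 16 ≤ psi z w m := by
  unfold psi
  have h1 : 1 ≤ uu ^ m := one_le_pow₀ uu_gt.le
  have h2 : 1 / uu ^ m ≤ 1 := by rw [div_le_one (by linarith)]; exact h1
  have : 0 ≤ 4 / z ^ 2 * (1 - 1 / uu ^ m) := mul_nonneg (by positivity) (by linarith)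
  linarith

theorem psi_nonneg (z : ℝ) (hz : 0 < z) (w m : ℕ) : 0 ≤ psi z w m := by
  have := psi_ge z hz w m
  have h : 0 ≤ z ^ w / (z ^ 2 * uu ^ (2 * m)) := by have := uu_gt; positivity
  linarith

theorem phi_le_one (M : ℕ) (z : ℝ) (w t : ℕ) : phi M z w t ≤ 1 := by
  unfold phi
  split_ifs
  · exact le_rfl
  · exact min_le_left _ _
  · norm_num
  · exact min_le_left _ _

theorem phi_nonneg (M : ℕ) (z : ℝ) (hz : 0 < z) (w t : ℕ) : 0 ≤ phi M z w t := by
  unfold phi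
  split_ifs
  · norm_num
  · exact le_min (by norm_num) (by positivity)
  · norm_num
  · exact le_min (by norm_num) (psi_nonneg z hz _ _)

theorem gg_nonneg (M w J : ℕ) : 0 ≤ gg M w J := by
  unfold gg
  exact mul_nonneg (by positivity) (le_max_left _ _)

theorem gg_le (M a w J k : ℕ) (h : a ≤ w) : gg M (a + k) J ≤ gg M w J + M / 2 * k := by
  unfold gg
  rw [← mul_add]
  apply mul_le_mul_of_nonneg_left _ (by positivity)
  have ha : (a : ℝ) ≤ w := by exact_mod_cast h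
  have hk : (0 : ℝ) ≤ k := by positivity
  push_cast
  apply max_le
  · linarith [le_max_left 0 ((w : ℝ) - 192 * 2 ^ J)]
  · linarith [le_max_right 0 ((w : ℝ) - 192 * 2 ^ J)]

variable {k M : ℕ} {z : ℝ}

theorem Par.Mge (h : Par k M z) : (6144 : ℝ) ≤ M := by linarith [h.h12, h.hM]

theorem Par.Mpos (h : Par k M z) : 0 < M := by
  have := h.Mge
  have : (0 : ℝ) < M := by linarith
  exact_mod_cast this

theorem Par.zpos (h : Par k M z) : 0 < z := by linarith [h.h12]

theorem Par.expz (h : Par k M z) : Real.exp (1 / M * (z - 1)) ≤ uu := by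
  have hM := h.Mge
  have hx : 1 / (M : ℝ) * (z - 1) ≤ 1 / 512 := by
    rw [one_div_mul_eq_div, div_le_div_iff₀ (by linarith) (by norm_num)]
    linarith [h.hM]
  have h1 : Real.exp (1 / M * (z - 1)) ≤ Real.exp (1 / 512) := Real.exp_le_exp.2 hx
  have h2 := Real.add_one_le_exp (-(1 / 512 : ℝ))
  have h3 : Real.exp (1 / 512) * Real.exp (-(1 / 512 : ℝ)) = 1 := by
    rw [← Real.exp_add]; simp
  have h4 := Real.exp_pos (1 / 512)
  unfold uu
  nlinarith

theorem Par.exp4 (h : Par k M z) : Real.exp (-(1 / M)) ^ (4 * M) ≤ 1 / 16 := by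
  have hM := h.Mge
  rw [← Real.exp_nat_mul]
  have : ((4 * M : ℕ) : ℝ) * (-(1 / M)) = -4 := by
    push_cast; field_simp
  rw [this]
  have h2 : (2 : ℝ) ≤ Real.exp 1 := by linarith [Real.add_one_le_exp (1 : ℝ)]
  have h3 : (16 : ℝ) ≤ Real.exp 4 := by
    have : Real.exp 4 = Real.exp 1 ^ 4 := by rw [← Real.exp_nat_mul]; norm_num
    rw [this]
    calc (16 : ℝ) = 2 ^ 4 := by norm_num
      _ ≤ _ := pow_le_pow_left₀ (by norm_num) h2 4
  rw [Real.exp_neg, one_div]
  exact inv_anti₀ (by norm_num) h3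

theorem Par.phi_le_psi (h : Par k M z) (w t : ℕ) (ht : 4 * M ≤ t) :
    phi M z w t ≤ psi z w (t - 4 * M) := by
  rcases ht.eq_or_lt with rfl | ht
  · have hM := h.Mge
    have hMp := h.Mpos
    rw [Nat.sub_self]
    refine le_trans ?_ (psi_ge z h.zpos w 0)
    have hz := h.zpos
    have h0 : 0 ≤ z ^ w / (z ^ 2 * uu ^ (2 * 0)) := by have := uu_gt; positivity
    unfold phi
    rw [if_pos le_rfl]
    split_ifs with h1 h2
    · have hw : 2 ≤ w := by omega
      have : 1 ≤ z ^ w / (z ^ 2 * uu ^ (2 * 0)) := by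
        rw [le_div_iff₀ (by have := uu_gt; positivity)]
        simpa using pow_le_pow_right₀ (by linarith [h.h12]) hw
      linarith
    · refine (min_le_right _ _).trans ?_
      have := h.exp4
      have h3 : 2 / (M : ℝ) ≤ 1 / 16 := by
        rw [div_le_div_iff₀ (by linarith) (by norm_num)]; linarith
      linarith
    · linarith
  · unfold phi
    rw [if_neg (by omega)]
    exact min_le_right _ _

theorem Par.endc (h : Par k M z) (w J : ℕ) :
    WW M z w (J + 1) (8 * M * 2 ^ (J + 1)) ≤ WW M z w J 0 := by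
  have hM := h.Mge
  have hMp := h.Mpos
  have hz := h.zpos
  have h0 : phi M z w 0 = 1 := by simp [phi]
  have hJ : (1 : ℝ) ≤ 2 ^ J := one_le_pow₀ (by norm_num)
  unfold WW
  rw [h0]
  push_cast
  by_cases hw : w ≤ 192 * 2 ^ (J + 1)
  · have hJ' : 1 ≤ 2 ^ (J + 1) := Nat.one_le_two_pow
    have hL : 4 * M ≤ 8 * M * 2 ^ (J + 1) := by nlinarith
    have h1 := h.phi_le_psi w _ hL
    have hkw : k * w ≤ 8 * M * 2 ^ (J + 1) - 4 * M := by
      have := h.hk
      have h5 : k * w ≤ 4 * M * 2 ^ (J + 1) := by nlinarith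
      have h6 : 4 * M ≤ 4 * M * 2 ^ (J + 1) := by nlinarith
      have h7 : 8 * M * 2 ^ (J + 1) = 4 * M * 2 ^ (J + 1) + 4 * M * 2 ^ (J + 1) := by ring
      omega
    generalize 8 * M * 2 ^ (J + 1) - 4 * M = m at h1 hkw
    have h2 : psi z w m ≤ 1 / 4 := by
      unfold psi
      have hu := uu_gt
      have h3 : z ^ w ≤ uu ^ (2 * m) := by
        rw [h.hz, ← pow_mul]
        exact pow_le_pow_right₀ hu.le (by nlinarith)
      have h4 : z ^ w / (z ^ 2 * uu ^ (2 * m)) ≤ 1 / z ^ 2 := by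
        rw [div_le_div_iff₀ (by positivity) (by positivity)]
        nlinarith [sq_nonneg z]
      have h5 : 4 / z ^ 2 * (1 - 1 / uu ^ m) ≤ 4 / z ^ 2 * 1 := by
        apply mul_le_mul_of_nonneg_left _ (by positivity)
        have : 0 ≤ 1 / uu ^ m := by positivity
        linarith
      have h6 : 1 / z ^ 2 ≤ 1 / 144 := by
        apply one_div_le_one_div_of_le (by norm_num)
        nlinarith [h.h12]
      have h7 : 4 / z ^ 2 * 1 = 4 * (1 / z ^ 2) := by ring
      linarith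
    have h3 : gg M w (J + 1) = 0 := by
      unfold gg
      have : (w : ℝ) ≤ 192 * 2 ^ (J + 1) := by exact_mod_cast hw
      rw [max_eq_left (by linarith), mul_zero]
    have h4 := gg_nonneg M w J
    have h5 : 64 * (M : ℝ) * 2 ^ (J + 1) * phi M z w (8 * M * 2 ^ (J + 1))
        ≤ 64 * (M : ℝ) * 2 ^ (J + 1) * (1 / 4) :=
      mul_le_mul_of_nonneg_left (h1.trans h2) (by positivity)
    rw [h3]
    rw [pow_succ] at h5 ⊢
    nlinarith
  · have hw' : (192 : ℝ) * 2 ^ (J + 1) ≤ w := by exact_mod_cast (not_le.1 hw).le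
    have h5 : 64 * (M : ℝ) * 2 ^ (J + 1) * phi M z w (8 * M * 2 ^ (J + 1))
        ≤ 64 * (M : ℝ) * 2 ^ (J + 1) * 1 :=
      mul_le_mul_of_nonneg_left (phi_le_one _ _ _ _) (by positivity)
    unfold gg
    rw [pow_succ] at h5 hw' ⊢
    rw [max_eq_right (by linarith), max_eq_right (by linarith)]
    nlinarith

theorem Par.fail_le (h : Par k M z) (w J n : ℕ) :
    VV M z (w, nx M (J, n) false) ≤ WW M z w J n := by
  unfold VV nx
  simp only [Bool.false_eq_true, false_and, if_false]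
  split_ifs with h1
  · subst h1
    have hMp := h.Mpos
    have : 8 * M * 2 ^ (J + 1) - 1 + 1 = 8 * M * 2 ^ (J + 1) := by
      have : 0 < 8 * M * 2 ^ (J + 1) := by positivity
      omega
    simp only [this]
    exact h.endc w J
  · have : n - 1 + 1 = n := by omega
    simp only [this]
    exact le_rfl

theorem Par.reset_le (h : Par k M z) (w J n : ℕ) (hn : n < 4 * M) :
    VV M z (w, nx M (J, n) true) ≤ 80 * M + M / 2 * w := by
  unfold VV nx
  simp only [true_and, if_pos hn]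
  have hMp := h.Mpos
  have : 8 * M - 1 + 1 = 8 * M := by omega
  simp only [this]
  unfold WW
  have h1 := phi_le_one M z w (8 * M)
  have h2 : gg M w 0 ≤ M / 2 * w := by
    unfold gg
    exact mul_le_mul_of_nonneg_left (max_le (by positivity) (by norm_num)) (by positivity)
  have h3 : (0 : ℝ) ≤ M := by positivity
  have h4 := mul_le_mul_of_nonneg_left h1 h3
  push_cast
  rw [pow_zero]
  linarith

theorem Par.EW (h : Par k M z) (a w J t : ℕ) (ha : a ≤ w) (g hh : ℕ → ℝ) (Φ : ℝ)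
    (hg : ∀ j, g j ≤ WW M z (a + j) J t) (hb : ∀ j, phi M z (a + j) t ≤ hh j)
    (hs : HasSum (fun j => pois (1 / M) j * hh j) Φ) :
    EP (1 / M) (fun j => ENNReal.ofReal (g j))
      ≤ ENNReal.ofReal (2 * t + 64 * M * 2 ^ J * Φ + gg M w J + 1 / 2) := by
  have hM := h.Mge
  refine EP_le (by positivity) g
    (fun j => 2 * t + 64 * M * 2 ^ J * hh j + gg M w J + M / 2 * j) _ (fun j => ?_) (fun j => ?_) ?_
  · refine (hg j).trans ?_
    unfold WW
    have h1 := gg_le M a w J j ha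
    have h2 : 64 * (M : ℝ) * 2 ^ J * phi M z (a + j) t ≤ 64 * M * 2 ^ J * hh j :=
      mul_le_mul_of_nonneg_left (hb j) (by positivity)
    linarith
  · have h1 := gg_nonneg M w J
    have h2 : 0 ≤ hh j := (phi_nonneg M z h.zpos _ _).trans (hb j)
    positivity
  · have h1 := (((hasSum_pois (1 / M)).mul_right (2 * t + gg M w J)).add
      (hs.mul_left (64 * (M : ℝ) * 2 ^ J))).add ((hasSum_pois_id (1 / M)).mul_left ((M : ℝ) / 2))
    have e : 2 * t + 64 * M * 2 ^ J * Φ + gg M w J + 1 / 2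
        = 1 * (2 * t + gg M w J) + 64 * M * 2 ^ J * Φ + M / 2 * (1 / M) := by
      field_simp; ring
    rw [e]
    refine (HasSum.congr_fun h1 fun j => ?_ :)
    ring

theorem Par.ER (h : Par k M z) (a J n : ℕ) (hn : n < 4 * M) :
    EP (1 / M) (fun j => ENNReal.ofReal (VV M z (a + j, nx M (J, n) true)))
      ≤ ENNReal.ofReal (80 * M + M / 2 * a + 1 / 2) := by
  have hM := h.Mge
  refine EP_le (by positivity) _
    (fun j => 80 * M + M / 2 * a + M / 2 * j) _ (fun j => ?_) (fun j => by positivity) ?_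
  · refine (h.reset_le _ J n hn).trans ?_
    push_cast
    linarith
  · have h1 := ((hasSum_pois (1 / M)).mul_right (80 * M + (M : ℝ) / 2 * a)).add
      ((hasSum_pois_id (1 / M)).mul_left ((M : ℝ) / 2))
    have e : 80 * M + M / 2 * a + 1 / 2 = 1 * (80 * M + (M : ℝ) / 2 * a) + M / 2 * (1 / M) := by
      field_simp
    rw [e]
    refine (HasSum.congr_fun h1 fun j => ?_ :)
    ring

theorem combine {s H1 H2 R : ℝ} {a b : ℝ≥0∞} (s0 : 0 ≤ s) (s1 : s ≤ 1) (h1 : 0 ≤ H1) (h2 : 0 ≤ H2)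
    (ha : a ≤ ENNReal.ofReal H1) (hb : b ≤ ENNReal.ofReal H2)
    (hR : s * H1 + (1 - s) * H2 + 1 ≤ R) :
    ENNReal.ofReal s * a + ENNReal.ofReal (1 - s) * b + 1 ≤ ENNReal.ofReal R := by
  have s2 : 0 ≤ 1 - s := by linarith
  calc ENNReal.ofReal s * a + ENNReal.ofReal (1 - s) * b + 1
      ≤ ENNReal.ofReal s * ENNReal.ofReal H1 + ENNReal.ofReal (1 - s) * ENNReal.ofReal H2
        + ENNReal.ofReal 1 := by rw [ENNReal.ofReal_one]; gcongr
    _ = ENNReal.ofReal (s * H1 + (1 - s) * H2 + 1) := by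
        rw [← ENNReal.ofReal_mul s0, ← ENNReal.ofReal_mul s2,
          ← ENNReal.ofReal_add (by positivity) (by positivity),
          ← ENNReal.ofReal_add (by positivity) (by positivity)]
    _ ≤ _ := ENNReal.ofReal_le_ofReal hR

end Pool.Agent.H.MP_ba3ff3_pr
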