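import Mathlib
import Pool.Agent.H.MP_ba3ff3_pr.Drift

set_option autoImplicit false
open scoped ENNReal Topology
open Filter

namespace Pool.Agent.H.MP_ba3ff3_pr

variable {k M : ℕ} {z : ℝ}

theorem sc_ge (w : ℕ) {p : ℝ} (h1 : p ≤ 1) (h0 : 0 ≤ p) (a : 1 / 16 ≤ w * p) (b : w * p ≤ 1 / 2) :
    1 / 32 ≤ sc w p := by
  unfold sc
  have hb := one_add_mul_le_pow (a := -p) (by linarith) (w - 1)
  have hw : ((w - 1 : ℕ) : ℝ) ≤ w := by exact_mod_cast Nat.sub_le w 1
  have h2 : (1 : ℝ) / 2 ≤ (1 - p) ^ (w - 1) := by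
    have : ((w - 1 : ℕ) : ℝ) * p ≤ w * p := mul_le_mul_of_nonneg_right hw h0
    rw [sub_eq_add_neg]
    linarith
  nlinarith

theorem sweep_alg (h : Par k M z) (hk1 : 1 ≤ k) (w m : ℕ) (p : ℝ) (hp0 : 0 ≤ p) (hp1 : p ≤ 1)
    (hlo : k / (4 * ((m + 1 : ℕ) + 2 * k : ℝ)) ≤ p) (hhi : p ≤ k / (2 * ((m + 1 : ℕ) + 2 * k : ℝ)))
    (hps : psi z w (m + 1) < 1) (E : ℝ) (hE0 : 0 ≤ E) (hE : E ≤ uu) :
    sc w p * (z ^ (w - 1) / (z ^ 2 * uu ^ (2 * m)) * E) + (1 - sc w p) * (z ^ w / (z ^ 2 * uu ^ (2 * m)) * E)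
      + (4 / z ^ 2 * (1 - 1 / uu ^ m) + 3 / 16) ≤ psi z w (m + 1) := by
  have hu := uu_gt
  have hz := h.zpos
  have hz1 : 1 ≤ z := by linarith [h.h12]
  have s0 := sc_nonneg w hp0 hp1
  have s1 := sc_le_one w hp0 hp1
  have hsl : 4 / z ^ 2 * (1 - 1 / uu ^ (m + 1)) = 4 / z ^ 2 * (1 - 1 / uu ^ m)
      + 4 * (uu - 1) / (z ^ 2 * uu ^ (m + 1)) := by
    field_simp; ring
  have hsl0 : 0 ≤ 4 * (uu - 1) / (z ^ 2 * uu ^ (m + 1)) := by
    have : 0 ≤ uu - 1 := by linarith
    positivity
  set X := z ^ w / (z ^ 2 * uu ^ (2 * (m + 1))) with hX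
  have hX0 : 0 ≤ X := by positivity
  have hXe : z ^ w / (z ^ 2 * uu ^ (2 * m)) = X * uu ^ 2 := by
    rw [hX]; field_simp; ring
  unfold psi
  rw [hsl, ← hX, hXe]
  by_cases hb : 2 * k * w ≤ m + 1
  · have h1 : z ^ (w - 1) / (z ^ 2 * uu ^ (2 * m)) ≤ X * uu ^ 2 := by
      rw [← hXe]
      exact div_le_div_of_nonneg_right (pow_le_pow_right₀ hz1 (Nat.sub_le w 1)) (by positivity)
    have h2 : X ≤ 1 / (z ^ 2 * uu ^ (m + 1)) := by
      rw [hX, div_le_div_iff₀ (by positivity) (by positivity)]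
      have h3 : z ^ w ≤ uu ^ (m + 1) := by
        rw [h.hz, ← pow_mul]
        exact pow_le_pow_right₀ hu.le hb
      have h4 : uu ^ (2 * (m + 1)) = uu ^ (m + 1) * uu ^ (m + 1) := by ring
      rw [h4]
      have h5 : 0 ≤ z ^ 2 * uu ^ (m + 1) := by positivity
      nlinarith
    have h3 : sc w p * (z ^ (w - 1) / (z ^ 2 * uu ^ (2 * m)) * E) ≤ sc w p * (X * uu ^ 2 * E) :=
      mul_le_mul_of_nonneg_left (mul_le_mul_of_nonneg_right h1 hE0) s0
    have h4 : X * uu ^ 2 * E ≤ X * uu ^ 2 * uu := mul_le_mul_of_nonneg_left hE (by positivity)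
    have h5 : X * uu ^ 2 * uu ≤ X + X * (4 * (uu - 1)) := by
      have : uu ^ 2 * uu ≤ 1 + 4 * (uu - 1) := by unfold uu; norm_num
      nlinarith
    have h6 : X * (4 * (uu - 1)) ≤ 1 / (z ^ 2 * uu ^ (m + 1)) * (4 * (uu - 1)) :=
      mul_le_mul_of_nonneg_right h2 (by linarith)
    have h7 : 1 / (z ^ 2 * uu ^ (m + 1)) * (4 * (uu - 1)) = 4 * (uu - 1) / (z ^ 2 * uu ^ (m + 1)) := by
      ring
    nlinarith
  · have hw : 1 ≤ w := by
      rcases Nat.eq_zero_or_pos w with rfl | h0
      · simp at hb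
      · exact h0
    have hX1 : X < 1 := by
      have := psi_ge z hz w (m + 1)
      linarith
    have hkw : k * w < m + 1 + 2 * k := by
      rw [hX, div_lt_one (by positivity), h.hz, ← pow_mul, ← pow_mul, ← pow_add] at hX1
      have := (pow_lt_pow_iff_right₀ hu).1 hX1
      nlinarith
    have hkw2 : m + 1 + 2 * k ≤ 4 * (k * w) := by nlinarith
    have hkw' : (k : ℝ) * w ≤ (m + 1 : ℕ) + 2 * k := by exact_mod_cast hkw.le
    have hkw2' : ((m + 1 : ℕ) + 2 * k : ℝ) ≤ 4 * (k * w) := by exact_mod_cast hkw2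
    have hD : (0 : ℝ) < (m + 1 : ℕ) + 2 * k := by positivity
    generalize ((m + 1 : ℕ) + 2 * k : ℝ) = D at hlo hhi hkw' hkw2' hD
    have hw0 : (0 : ℝ) ≤ w := by positivity
    have hs : 1 / 32 ≤ sc w p := by
      apply sc_ge w hp1 hp0
      · rw [div_le_iff₀ (by positivity)] at hlo
        have : (k : ℝ) * w ≤ p * (4 * D) * w := mul_le_mul_of_nonneg_right hlo hw0
        by_contra hc
        push Not at hc
        nlinarith
      · rw [le_div_iff₀ (by positivity)] at hhi
        have : p * (2 * D) * w ≤ (k : ℝ) * w := mul_le_mul_of_nonneg_right hhi hw0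
        by_contra hc
        push Not at hc
        nlinarith
    have h1 : z ^ (w - 1) / (z ^ 2 * uu ^ (2 * m)) ≤ X * uu ^ 2 / 12 := by
      rw [← hXe, div_div, div_le_div_iff₀ (by positivity) (by positivity)]
      have h2 : z ^ w = z ^ (w - 1) * z := by rw [← pow_succ]; congr 1; omega
      rw [h2]
      have h5 : 0 ≤ z ^ (w - 1) * (z ^ 2 * uu ^ (2 * m)) := by positivity
      nlinarith [h.h12]
    have h3 : sc w p * (z ^ (w - 1) / (z ^ 2 * uu ^ (2 * m)) * E) ≤ sc w p * (X * uu ^ 2 / 12 * E) :=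
      mul_le_mul_of_nonneg_left (mul_le_mul_of_nonneg_right h1 hE0) s0
    have h4 : X * uu ^ 2 * E ≤ X * uu ^ 2 * uu := mul_le_mul_of_nonneg_left hE (by positivity)
    have h5 : 0 ≤ X * uu ^ 2 * E := by positivity
    have h6 : uu ^ 2 * uu * (1 - 11 / 384) ≤ 1 := by unfold uu; norm_num
    have h7 : X * (uu ^ 2 * uu * (1 - 11 / 384)) ≤ X * 1 := mul_le_mul_of_nonneg_left h6 hX0
    have h8 : (1 / 32) * (X * uu ^ 2 * E) ≤ sc w p * (X * uu ^ 2 * E) :=
      mul_le_mul_of_nonneg_right hs h5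
    nlinarith

theorem Par.sweep (h : Par k M z) (hk1 : 1 ≤ k) (w J n : ℕ) (hn : 4 * M ≤ n) (p : ℝ) (hp0 : 0 ≤ p)
    (hp1 : p ≤ 1)
    (hlo : k / (4 * ((n - 4 * M + 1 : ℕ) + 2 * k : ℝ)) ≤ p)
    (hhi : p ≤ k / (2 * ((n - 4 * M + 1 : ℕ) + 2 * k : ℝ))) :
    ENNReal.ofReal (sc w p) * EP (1 / M) (fun j => ENNReal.ofReal (VV M z (w - 1 + j, nx M (J, n) true)))
      + ENNReal.ofReal (1 - sc w p) * EP (1 / M) (fun j => ENNReal.ofReal (VV M z (w + j, nx M (J, n) false)))
      + 1 ≤ ENNReal.ofReal (VV M z (w, (J, n))) := by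
  have s0 := sc_nonneg w hp0 hp1
  have s1 := sc_le_one w hp0 hp1
  have hz := h.zpos
  have hu := uu_gt
  have hnx : nx M (J, n) true = nx M (J, n) false := by
    unfold nx
    simp [not_lt.2 hn]
  rw [hnx]
  have hg := gg_nonneg M w J
  have hphi : phi M z w (n + 1) = min 1 (psi z w (n - 4 * M + 1)) := by
    unfold phi
    rw [if_neg (by omega)]
    congr 2
    omega
  by_cases hps : psi z w (n - 4 * M + 1) < 1
  · set m := n - 4 * M with hm
    set E := Real.exp (1 / M * (z - 1)) with hE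
    have hE0 : 0 ≤ E := (Real.exp_pos _).le
    set c := 4 / z ^ 2 * (1 - 1 / uu ^ m) + 3 / 16 with hc
    have hc0 : 0 ≤ c := by
      have h1 : 1 ≤ uu ^ m := one_le_pow₀ uu_gt.le
      have h2 : 1 / uu ^ m ≤ 1 := by rw [div_le_one (by linarith)]; exact h1
      have : 0 ≤ 4 / z ^ 2 * (1 - 1 / uu ^ m) := mul_nonneg (by positivity) (by linarith)
      linarith
    have key : ∀ a ≤ w, EP (1 / M) (fun j => ENNReal.ofReal (VV M z (a + j, nx M (J, n) false)))
        ≤ ENNReal.ofReal (2 * n + 64 * M * 2 ^ J * (z ^ a / (z ^ 2 * uu ^ (2 * m)) * E + c)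
          + gg M w J + 1 / 2) := by
      intro a ha
      refine h.EW a w J n ha _ (fun j => psi z (a + j) m) _ (fun j => h.fail_le _ J n)
        (fun j => h.phi_le_psi _ n hn) ?_
      have h1 := ((hasSum_pois_pow (1 / M) z).mul_left (z ^ a / (z ^ 2 * uu ^ (2 * m)))).add
        ((hasSum_pois (1 / M)).mul_left c)
      rw [mul_one] at h1
      refine (HasSum.congr_fun h1 fun j => ?_ :)
      unfold psi
      rw [hc, pow_add]
      ring
    refine combine s0 s1 (by positivity) (by positivity) (key _ (Nat.sub_le w 1)) (key _ le_rfl) ?_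
    have := sweep_alg h hk1 w m p hp0 hp1 hlo hhi hps E hE0 h.expz
    rw [← hc] at this
    have h2 := mul_le_mul_of_nonneg_left this (show (0 : ℝ) ≤ 64 * M * 2 ^ J by positivity)
    unfold VV WW
    simp only
    rw [hphi, min_eq_right hps.le]
    push_cast
    nlinarith
  · have key : ∀ a ≤ w, EP (1 / M) (fun j => ENNReal.ofReal (VV M z (a + j, nx M (J, n) false)))
        ≤ ENNReal.ofReal (2 * n + 64 * M * 2 ^ J * 1 + gg M w J + 1 / 2) := by
      intro a ha
      refine h.EW a w J n ha _ (fun _ => 1) _ (fun j => h.fail_le _ J n)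
        (fun j => phi_le_one _ _ _ _) ?_
      simpa using hasSum_pois (1 / M)
    refine combine s0 s1 (by positivity) (by positivity) (key _ (Nat.sub_le w 1)) (key _ le_rfl) ?_
    unfold VV WW
    simp only
    rw [hphi, min_eq_left (not_lt.1 hps)]
    push_cast
    nlinarith

theorem sq_le_four_pow (n : ℕ) : ((n : ℝ) + 2) ^ 2 ≤ 4 * 4 ^ n := by
  induction n with
  | zero => norm_num
  | succ n ih =>
    push_cast
    rw [pow_succ (4 : ℝ)]
    have : (0 : ℝ) ≤ n := by positivity
    nlinarith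

theorem Par.listen (h : Par k M z) (w J n : ℕ) (hn : n < 4 * M) (p : ℝ)
    (hp1 : p ≤ 1) (hlo : 1 - 1 / (328 * M) ≤ p) :
    ENNReal.ofReal (sc w p) * EP (1 / M) (fun j => ENNReal.ofReal (VV M z (w - 1 + j, nx M (J, n) true)))
      + ENNReal.ofReal (1 - sc w p) * EP (1 / M) (fun j => ENNReal.ofReal (VV M z (w + j, nx M (J, n) false)))
      + 1 ≤ ENNReal.ofReal (VV M z (w, (J, n)) + if w = 1 ∧ J < 6 then 80 * (M : ℝ) else 0) := by
  have hM := h.Mge
  have hε : 1 / (328 * (M : ℝ)) ≤ 1 / 32 := one_div_le_one_div_of_le (by norm_num) (by linarith)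
  have hp0 : 0 ≤ p := by linarith
  have s0 := sc_nonneg w hp0 hp1
  have s1 := sc_le_one w hp0 hp1
  have hz := h.zpos
  have hg := gg_nonneg M w J
  have hR := h.ER (w - 1) J n hn
  have hJ : (1 : ℝ) ≤ 2 ^ J := one_le_pow₀ (by norm_num)
  have key : EP (1 / M) (fun j => ENNReal.ofReal (VV M z (w + j, nx M (J, n) false)))
        ≤ ENNReal.ofReal (2 * n + 64 * M * 2 ^ J * 1 + gg M w J + 1 / 2) := by
    refine h.EW w w J n le_rfl _ (fun _ => 1) _ (fun j => h.fail_le _ J n)
        (fun j => phi_le_one _ _ _ _) ?_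
    simpa using hasSum_pois (1 / M)
  rcases Nat.lt_or_ge w 2 with hw | hw
  · interval_cases w
    · rw [if_neg (by omega), add_zero]
      have hs : sc 0 p = 0 := by simp [sc]
      set r := Real.exp (-(1 / M)) with hr
      have hr0 : 0 < r := Real.exp_pos _
      have hr1 : 1 - 1 / M ≤ r := by linarith [Real.add_one_le_exp (-(1 / (M : ℝ)))]
      have hl : (0 : ℝ) < 1 / M := by positivity
      have hl2 : (1 : ℝ) / M ≤ 1 / 2 := one_div_le_one_div_of_le (by norm_num) (by linarith)
      have h2M : (2 : ℝ) / M = 2 * (1 / M) := by ring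
      have hphi : phi M z 0 (n + 1) = min 1 (1 / 16 + 2 / M + r ^ (n + 1)) := by
        unfold phi
        rw [if_pos (by omega), if_neg (by omega), if_pos rfl]
      by_cases hc : 1 ≤ 1 / 16 + 2 / M + r ^ (n + 1)
      · refine combine s0 s1 (by positivity) (by positivity) hR key ?_
        unfold VV WW
        simp only
        rw [hphi, min_eq_left hc, hs]
        push_cast
        linarith
      · have hn0 : n ≠ 0 := by
          rintro rfl
          apply hc
          rw [zero_add, pow_one]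
          linarith
        have key2 : EP (1 / M) (fun j => ENNReal.ofReal (VV M z (0 + j, nx M (J, n) false)))
            ≤ ENNReal.ofReal (2 * n + 64 * M * 2 ^ J * (1 - r * (1 - (1 / 16 + 2 / M + r ^ n))
              - r * (1 / M) * (15 / 16)) + gg M 0 J + 1 / 2) := by
          refine h.EW 0 0 J n le_rfl _ (fun j => 1 - (if j = 0 then 1 - (1 / 16 + 2 / M + r ^ n) else 0)
            - (if j = 1 then 15 / 16 else 0)) _ (fun j => h.fail_le _ J n) (fun j => ?_) ?_
          · rw [zero_add]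
            unfold phi
            rw [if_pos hn.le]
            rcases j with _ | _ | j
            · rw [if_neg (by omega), if_pos rfl, if_pos rfl, if_neg (by omega)]
              refine (min_le_right _ _).trans (le_of_eq ?_)
              ring
            · rw [if_neg (by omega), if_neg (by omega), if_neg (by omega), if_pos (by omega)]
              norm_num
            · rw [if_pos (by omega), if_neg (by omega), if_neg (by omega)]
              norm_num
          · have h0 := hasSum_ite_eq (0 : ℕ) (r * (1 - (1 / 16 + 2 / M + r ^ n)))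
            have h1 := hasSum_ite_eq (1 : ℕ) (r * (1 / M) * (15 / 16))
            have h3 := ((hasSum_pois (1 / M)).sub h0).sub h1
            refine (HasSum.congr_fun h3 fun j => ?_ :)
            rcases j with _ | _ | j
            · simp [pois, hr]; ring
            · simp [pois, hr]; ring
            · simp
        have hr2 : r ≤ 1 := by
          rw [hr]; exact Real.exp_le_one_iff.2 (by linarith)
        have hΦ : 1 - r * (1 - (1 / 16 + 2 / M + r ^ n)) - r * (1 / M) * (15 / 16)
            ≤ 1 / 16 + 2 / M + r ^ (n + 1) := by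
          rw [h2M, pow_succ]
          generalize (1 : ℝ) / M = l at *
          have e1 : 0 ≤ l * (r - (1 - l)) := mul_nonneg hl.le (by linarith)
          have e2 : r * (1 + l) ≤ 1 := by
            have := Real.add_one_le_exp l
            have h5 : r * Real.exp l = 1 := by rw [hr, ← Real.exp_add]; simp
            nlinarith
          have e3 : 0 ≤ l * (1 - r * (1 + l)) := mul_nonneg hl.le (by linarith)
          have e4 : 0 ≤ l * l * (r - 1 / 2) := mul_nonneg (mul_nonneg hl.le hl.le) (by linarith)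
          nlinarith
        have hΦ0 : 0 ≤ 1 - r * (1 - (1 / 16 + 2 / M + r ^ n)) - r * (1 / M) * (15 / 16) := by
          have e2 : r * (1 + 1 / M) ≤ 1 := by
            have := Real.add_one_le_exp (1 / (M : ℝ))
            have h5 : r * Real.exp (1 / M) = 1 := by rw [hr, ← Real.exp_add]; simp
            nlinarith
          have e3 : 0 ≤ r * (1 / 16 + 2 / M + r ^ n) := by positivity
          have e4 : 0 ≤ r * (1 / M) := by positivity
          nlinarith
        refine combine s0 s1 (by positivity) (by positivity) hR key2 ?_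
        unfold VV WW
        simp only
        rw [hphi, min_eq_right (not_le.1 hc).le, hs]
        have h2 := mul_le_mul_of_nonneg_left hΦ (show (0 : ℝ) ≤ 64 * M * 2 ^ J by positivity)
        push_cast
        linarith
    · refine combine s0 s1 (by positivity) (by positivity) hR key ?_
      have hs : sc 1 p = p := by simp [sc]
      have hphi : phi M z 1 (n + 1) = 1 / 16 := by
        unfold phi
        rw [if_pos (by omega), if_neg (by omega), if_neg (by omega)]
      unfold VV WW
      simp only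
      rw [hphi, hs]
      have e1 : p * (80 * M + M / 2 * ((1 - 1 : ℕ) : ℝ) + 1 / 2) ≤ 80 * M + 1 / 2 := by
        simp only [Nat.sub_self, Nat.cast_zero, mul_zero, add_zero]
        nlinarith
      have e2 : (1 - p) * (2 * n + gg M 1 J + 1 / 2) ≤ 2 * n + gg M 1 J + 1 / 2 := by
        have : 0 ≤ 2 * n + gg M 1 J + 1 / 2 := by positivity
        nlinarith
      have e3 : (1 - p) * (64 * M * 2 ^ J) ≤ 1 / 32 * (64 * M * 2 ^ J) :=
        mul_le_mul_of_nonneg_right (by linarith) (by positivity)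
      push_cast
      split_ifs with hc
      · have : (0 : ℝ) ≤ M * 2 ^ J := by positivity
        push_cast at e1
        nlinarith
      · have hJ6 : 6 ≤ J := by simpa using hc
        have : (64 : ℝ) ≤ 2 ^ J := by
          calc (64 : ℝ) = 2 ^ 6 := by norm_num
            _ ≤ _ := pow_le_pow_right₀ (by norm_num) hJ6
        have : (M : ℝ) * 64 ≤ M * 2 ^ J := mul_le_mul_of_nonneg_left this (by positivity)
        push_cast at e1
        nlinarith
  · refine combine s0 s1 (by positivity) (by positivity) hR key ?_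
    rw [if_neg (by omega), add_zero]
    have hphi : phi M z w (n + 1) = 1 := by
      unfold phi
      rw [if_pos (by omega), if_pos (by omega)]
    unfold VV WW
    simp only
    rw [hphi]
    obtain ⟨v, rfl⟩ : ∃ v, w = v + 2 := ⟨w - 2, by omega⟩
    have e2 : (1 - sc (v + 2) p) * (2 * n + 64 * M * 2 ^ J * 1 + gg M (v + 2) J + 1 / 2)
        ≤ 2 * n + 64 * M * 2 ^ J * 1 + gg M (v + 2) J + 1 / 2 := by
      have : 0 ≤ 2 * n + 64 * M * 2 ^ J * 1 + gg M (v + 2) J + 1 / 2 := by positivity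
      nlinarith
    have hv : (0 : ℝ) ≤ v := by positivity
    have e1 : sc (v + 2) p * (80 * M + M / 2 * ((v + 2 - 1 : ℕ) : ℝ) + 1 / 2) ≤ 1 / 2 := by
      have a1 : (80 * M + M / 2 * ((v + 2 - 1 : ℕ) : ℝ) + 1 / 2) ≤ 41 * M * (v + 2) := by
        have : ((v + 2 - 1 : ℕ) : ℝ) = v + 1 := by
          have : v + 2 - 1 = v + 1 := by omega
          rw [this]; push_cast; ring
        rw [this]
        nlinarith
      have a2 : sc (v + 2) p ≤ (v + 2) * ((1 / 4) ^ v * (1 / (328 * M))) := by
        unfold sc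
        have : v + 2 - 1 = v + 1 := by omega
        rw [this, pow_succ]
        push_cast
        have b0 : 0 ≤ 1 - p := by linarith
        have b1 : (1 - p) ^ v ≤ (1 / 4) ^ v := pow_le_pow_left₀ b0 (by linarith) v
        have b2 : (1 - p) ^ v * (1 - p) ≤ (1 / 4) ^ v * (1 / (328 * M)) :=
          mul_le_mul b1 (by linarith) b0 (by positivity)
        have b3 : p * ((1 - p) ^ v * (1 - p)) ≤ 1 * ((1 / 4) ^ v * (1 / (328 * M))) :=
          mul_le_mul hp1 b2 (by positivity) (by norm_num)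
        rw [mul_assoc]
        apply mul_le_mul_of_nonneg_left _ (by positivity)
        linarith
      have a3 := sq_le_four_pow v
      calc _ ≤ ((v : ℝ) + 2) * ((1 / 4) ^ v * (1 / (328 * M))) * (41 * M * (v + 2)) :=
            mul_le_mul a2 a1 (by positivity) (by positivity)
        _ = ((v : ℝ) + 2) ^ 2 / (8 * 4 ^ v) := by
            rw [one_div_pow]; field_simp; ring
        _ ≤ 1 / 2 := by
            rw [div_le_div_iff₀ (by positivity) (by norm_num)]; linarith
    push_cast at e1 e2 ⊢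
    linarith

theorem exists_par : ∃ k M : ℕ, ∃ z : ℝ, 1 ≤ k ∧ Par k M z := by
  obtain ⟨k, hk1, hk⟩ : ∃ k : ℕ, 1 ≤ k ∧ (12 : ℝ) ≤ uu ^ (2 * k) := by
    refine ⟨1408, by norm_num, ?_⟩
    have := one_add_mul_le_pow (a := (1 / 256 : ℝ)) (by norm_num) (2 * 1408)
    have e : (1 : ℝ) + 1 / 256 = uu := by unfold uu; norm_num
    rw [e] at this
    refine le_trans ?_ this
    norm_num
  obtain ⟨N, hN⟩ := exists_nat_ge (512 * uu ^ (2 * k))
  refine ⟨k, N + 48 * k, uu ^ (2 * k), hk1, rfl, hk, by omega, ?_⟩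
  push_cast
  have : (0 : ℝ) ≤ k := by positivity
  linarith

end Pool.Agent.H.MP_ba3ff3_pr
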